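import Pool.Agent.WAP.StmtsM
import Pool.Agent.WAP.Alg

set_option autoImplicit false

/-!
# WAP, row MZZ: the slope coordinate and the sizes near the origin
-/

namespace Pool.Agent.WAP.H51

open Classical Polynomial WeierstrassCurve.Affine

/-- Data of a nonzero point in the kernel of reduction. -/
theorem mzz_aux (zeq : ZeqStmt) {F : Type} [NormedField F] [Algebra GaussianInt F]
    {ϖ : GaussianInt} (hloc : IsLoc F ϖ) {d : F} (hd : d ≠ 0) {P : Pt d} (hP : P ≠ 0)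
    (hB : Big 1 P) : ‖cX P / d‖ * (‖d‖ * ‖zc P‖ ^ 2) = 1 ∧ yn P ≠ 0 := by
  have hdn : 0 < ‖d‖ := norm_pos_iff.2 hd
  have h1 : 1 < ‖cX P / d‖ := by
    rcases hB with h | h
    · exact absurd h hP
    · exact h
  rcases P with _ | ⟨X, Y, hXY⟩
  · exact absurd rfl hP
  · have e1 : cX (Point.some X Y hXY : Pt d) = X := rfl
    have e2 : zc (Point.some X Y hXY : Pt d) = X / Y := rfl
    have e3 : yn (Point.some X Y hXY : Pt d) = Y / d ^ 2 := rfl
    rw [e1] at h1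
    have h2 : ‖d‖ < ‖X‖ := by
      rw [norm_div, lt_div_iff₀ hdn] at h1
      linarith
    obtain ⟨hY, hX, _⟩ := zeq F ϖ hloc d X Y hd hXY h2
    rw [e1, e2, e3]
    constructor
    · rw [norm_div]
      have : ‖X‖ / ‖d‖ * (‖d‖ * ‖X / Y‖ ^ 2) = ‖X‖ * ‖X / Y‖ ^ 2 := by
        field_simp
      rw [this, hX]
    · exact div_ne_zero hY (pow_ne_zero 2 hd)

/-- Row MZZ. -/
theorem mzz (zeq : ZeqStmt) : MzzStmt := by
  intro F _ _ ϖ hloc d hd P Q
  refine ⟨?_, ?_, ?_, ?_⟩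
  · intro h
    obtain ⟨_, hP, hQ⟩ := G.yn_ne_of_onU h
    have hP0 : P ≠ 0 := by rintro rfl; exact hP yn_zero
    have hQ0 : Q ≠ 0 := by rintro rfl; exact hQ yn_zero
    have key : ∀ R : Pt d, R ≠ 0 → yn R ≠ 0 → zc R ≠ 0 := by
      intro R hR hy
      have iR := G.isP_self hd hR
      have e1 := iR.eqn hd
      have hc : cub (xn R) ≠ 0 := by
        rw [← e1]
        exact mul_ne_zero hd (pow_ne_zero 2 hy)
      rw [iR.zc_eq hd]
      exact div_ne_zero (G.ne_of_cub_ne hc).1 (mul_ne_zero hd hy)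
    exact ⟨G.mz_kum h, hP0, hQ0, key P hP0 hP, key Q hQ0 hQ⟩
  · intro hP hB
    exact (mzz_aux zeq hloc hd hP hB).1
  · intro hQ hB
    exact (mzz_aux zeq hloc hd hQ hB).1
  · intro hP hBP hQ hBQ
    exact G.onU_kum hd (mzz_aux zeq hloc hd hP hBP).2 (mzz_aux zeq hloc hd hQ hBQ).2

end Pool.Agent.WAP.H51
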